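import Mathlib

set_option autoImplicit false

open Set Metric Filter Topology InnerProductSpace

namespace Pool.Agent.H.Tors

lemma iter {u : ℂ → ℝ} {z : ℂ} (hc : ContDiffAt ℝ 2 u z) (v : ℂ) :
    iteratedFDeriv ℝ 2 u z ![v, v] = fderiv ℝ (fun w => fderiv ℝ u w v) z v := by
  have hd : DifferentiableAt ℝ (fderiv ℝ u) z :=
    (hc.fderiv_right (m := 1) (by norm_num)).differentiableAt (by norm_num)
  rw [iteratedFDeriv_two_apply, fderiv_clm_apply hd (differentiableAt_const v)]
  simp

lemma locmax {u : ℂ → ℝ} {z : ℂ} (hc : ContDiffAt ℝ 2 u z) (hm : IsLocalMax u z) :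
    Laplacian.laplacian u z ≤ 0 := by
  have k : ∀ v, iteratedFDeriv ℝ 2 u z ![v, v] ≤ 0 := fun v => by
    rw [iter hc]
    by_contra h
    push Not at h
    have l1 : ∀ τ : ℝ, HasDerivAt (fun τ : ℝ => z + τ * v) v τ := fun τ => by
      simpa using ((Complex.ofRealCLM.hasDerivAt (x := τ)).mul_const v).const_add z
    have l0 := l1 0
    have lc : Continuous fun τ : ℝ => z + τ * v := by fun_prop
    have lt : Tendsto (fun τ : ℝ => z + τ * v) (𝓝 0) (𝓝 z) := by simpa using lc.tendsto 0
    have e1 : deriv (fun τ : ℝ => u (z + τ * v)) =ᶠ[𝓝 0] fun τ => fderiv ℝ u (z + τ * v) v := by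
      filter_upwards [lt.eventually (hc.eventually (by simp))] with τ hτ
      exact ((hτ.differentiableAt (by norm_num)).hasFDerivAt.comp_hasDerivAt τ (l1 τ)).deriv
    have hd : DifferentiableAt ℝ (fun w => fderiv ℝ u w v) (z + ((0:ℝ):ℂ) * v) := by
      simpa using ((hc.fderiv_right (m := 1) (by norm_num)).differentiableAt
        (by norm_num)).clm_apply (differentiableAt_const v)
    have e2 : deriv (deriv fun τ : ℝ => u (z + τ * v)) 0 =
        fderiv ℝ (fun w => fderiv ℝ u w v) z v := by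
      rw [e1.deriv_eq]
      simpa [Function.comp_def] using (hd.hasFDerivAt.comp_hasDerivAt 0 l0).deriv
    have m1 : IsLocalMax (fun τ : ℝ => u (z + τ * v)) 0 := by
      have := lt.eventually hm
      simpa [IsLocalMax, IsMaxFilter] using this
    have c1 : ContinuousAt (fun τ : ℝ => u (z + τ * v)) 0 :=
      ContinuousAt.comp (f := fun τ : ℝ => z + τ * v) (by simpa using hc.continuousAt)
        lc.continuousAt
    have m2 := isLocalMin_of_deriv_deriv_pos (e2 ▸ h) m1.deriv_eq_zero c1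
    have e3 : (fun τ : ℝ => u (z + τ * v)) =ᶠ[𝓝 0] fun _ => u (z + ((0:ℝ):ℂ) * v) := by
      filter_upwards [m1, m2] with τ h1 h2 using le_antisymm h1 h2
    rw [e3.deriv.deriv_eq] at e2
    simp at e2
    linarith
  rw [InnerProductSpace.laplacian_eq_iteratedFDeriv_complexPlane]
  exact add_nonpos (k _) (k _)

/-- the square of the real part -/
def q (z : ℂ) : ℝ := z.re ^ 2

lemma q_cd : ContDiff ℝ 2 q := (Complex.reCLM.contDiff).pow 2

@[fun_prop] lemma q_cont : Continuous q := q_cd.continuous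

lemma q_lap (z : ℂ) : Laplacian.laplacian q z = 2 := by
  have e : ∀ v : ℂ, (fun w => fderiv ℝ q w v) = fun w => (2 * v.re) • Complex.reCLM w := fun v => by
    funext w
    have : HasFDerivAt q _ w := (Complex.reCLM.hasFDerivAt (x := w)).pow 2
    rw [this.fderiv]
    simp
    ring
  have k : ∀ v : ℂ, iteratedFDeriv ℝ 2 q z ![v, v] = 2 * v.re * v.re := fun v => by
    rw [iter q_cd.contDiffAt, e]
    have : HasFDerivAt (fun w => (2 * v.re) • Complex.reCLM w) _ z :=
      (Complex.reCLM.hasFDerivAt (x := z)).const_smul (2 * v.re)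
    rw [this.fderiv]
    simp
  rw [InnerProductSpace.laplacian_eq_iteratedFDeriv_complexPlane]
  simp [k]

/-- weak maximum principle -/
lemma mp {u : ℂ → ℝ} {G : Set ℂ} (ho : IsOpen G) (hb : Bornology.IsBounded G)
    (hc : ∀ z ∈ G, ContDiffAt ℝ 2 u z) (hs : ∀ z ∈ G, 0 ≤ Laplacian.laplacian u z)
    (hk : ContinuousOn u (closure G)) (hf : ∀ z ∈ frontier G, u z ≤ 0) {z : ℂ} (hz : z ∈ G) :
    u z ≤ 0 := by
  have hK := hb.isCompact_closure
  obtain ⟨R, hR⟩ := hb.closure.exists_norm_le
  refine le_of_forall_pos_le_add fun ε hε => ?_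
  set δ := ε / (R ^ 2 + 1) with hδ
  have d0 : 0 < δ := by positivity
  obtain ⟨w, hw, hm⟩ := hK.exists_isMaxOn (f := u + δ • q) ⟨z, subset_closure hz⟩
    (hk.add (q_cont.const_smul δ).continuousOn)
  have h1 : w ∉ G := fun h => by
    have := locmax ((hc w h).add (q_cd.contDiffAt.const_smul δ))
      (hm.isLocalMax (mem_of_superset (ho.mem_nhds h) subset_closure))
    have e := (hc w h).laplacian_add (f₂ := δ • q) (q_cd.contDiffAt.const_smul δ)
    rw [InnerProductSpace.laplacian_smul _ q_cd.contDiffAt, q_lap] at e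
    have h3 := hs w h
    have h4 : Laplacian.laplacian (u + δ • q) w ≤ 0 := this
    rw [e, smul_eq_mul] at h4
    linarith
  have h2 : u z + δ * q z ≤ u w + δ * q w := hm (subset_closure hz)
  have h3 := hf w (by rw [ho.frontier_eq]; exact ⟨hw, h1⟩)
  have h4 : q w ≤ R ^ 2 + 1 := by
    have := Complex.abs_re_le_norm w
    have h5 := hR w hw
    unfold q
    nlinarith [abs_nonneg w.re, sq_abs w.re]
  have h5 : δ * (R ^ 2 + 1) = ε := by rw [hδ]; field_simp
  have h6 : 0 ≤ q z := sq_nonneg _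
  nlinarith

lemma hlap {h : ℂ → ℝ} {z : ℂ} (hh : HarmonicAt h z) : Laplacian.laplacian h z = 0 :=
  hh.2.eq_of_nhds

/-- comparison of harmonic functions -/
lemma hle {f g : ℂ → ℝ} {G : Set ℂ} (ho : IsOpen G) (hb : Bornology.IsBounded G)
    (hf : HarmonicContOnCl f G) (hg : HarmonicContOnCl g G) (hfr : ∀ z ∈ frontier G, f z ≤ g z)
    {z : ℂ} (hz : z ∈ G) : f z ≤ g z := by
  have h := hf.sub hg
  have := mp (u := f - g) ho hb (fun z hz => (h.1 z hz).1) (fun z hz => (hlap (h.1 z hz)).ge) h.2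
    (fun z hz => sub_nonpos.2 (hfr z hz)) hz
  exact sub_nonpos.1 this

/-- subharmonic in the comparison sense -/
def Sub (Ω : Set ℂ) (u : ℂ → ℝ) : Prop :=
  ∀ G : Set ℂ, IsOpen G → G ⊆ Ω → ∀ h : ℂ → ℝ, HarmonicContOnCl h G →
    (∀ z ∈ frontier G, u z ≤ h z) → ∀ z ∈ G, u z ≤ h z

lemma q_sub {Ω : Set ℂ} (hb : Bornology.IsBounded Ω) : Sub Ω q := by
  intro G ho hs h hh hf z hz
  have := mp (u := q - h) ho (hb.subset hs) (fun z hz => q_cd.contDiffAt.sub (hh.1 z hz).1)
    (fun z hz => by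
      rw [q_cd.contDiffAt.laplacian_sub (hh.1 z hz).1, q_lap, hlap (hh.1 z hz)]; norm_num)
    (q_cont.continuousOn.sub hh.2) (fun z hz => sub_nonpos.2 (hf z hz)) hz
  exact sub_nonpos.1 this

/-- Poisson integral -/
noncomputable def PI (u : ℂ → ℝ) (c : ℂ) (R : ℝ) (w : ℂ) : ℝ :=
  Real.circleAverage ((Complex.re ∘ herglotzRieszKernel c w) • u) c R

variable {u v h : ℂ → ℝ} {c w : ℂ} {R : ℝ}

lemma PI_harm (hR : 0 < R) (hu : ContinuousOn u (sphere c R)) :
    HarmonicOnNhd (PI u c R) (ball c R) := by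
  have hg : CircleIntegrable (fun ζ => u (ζ + c)) 0 R := by
    refine ContinuousOn.circleIntegrable hR.le (hu.comp (by fun_prop) fun ζ hζ => ?_)
    simpa using hζ
  have hg' : CircleIntegrable (fun ζ => ((u (ζ + c) : ℝ) : ℂ)) 0 R := by
    refine ContinuousOn.circleIntegrable hR.le
      (Complex.continuous_ofReal.comp_continuousOn (hu.comp (by fun_prop) fun ζ hζ => ?_))
    simpa using hζ
  have ha := analyticOnNhd_circleAverage_herglotzRieszKernel_smul hg'
  intro w hw
  have hw' : w - c ∈ ball (0 : ℂ) R := by simpa using mem_ball_iff_norm.1 hw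
  have h1 := ((ha _ hw').comp_of_eq (f := fun z : ℂ => z - c) (x := w) (by fun_prop) rfl).harmonicAt_re
  refine (harmonicAt_congr_nhds ?_).1 h1
  filter_upwards [isOpen_ball.mem_nhds hw] with z hz
  have hz' : z - c ∈ ball (0 : ℂ) R := by simpa using mem_ball_iff_norm.1 hz
  simp only [Function.comp_apply]
  rw [re_circleAverage_herglotzRieszKernel_smul hg hz', PI, ← Real.circleAverage_map_add_const (c := c)]
  congr 1
  funext ζ
  simp [herglotzRieszKernel_def]

lemma ker_ci (hw : w ∈ ball c R) (hu : ContinuousOn u (sphere c R)) :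
    CircleIntegrable ((Complex.re ∘ herglotzRieszKernel c w) • u) c R := by
  have hR := pos_of_mem_ball hw
  have h1 := continuousOn_herglotzRieszKernel_sphere hw
  rw [abs_of_pos hR] at h1
  exact ContinuousOn.circleIntegrable hR.le
    ((Complex.continuous_re.comp_continuousOn h1).smul hu)

lemma PI_mono (hw : w ∈ ball c R) (hu : ContinuousOn u (sphere c R))
    (hv : ContinuousOn v (sphere c R)) (h : ∀ z ∈ sphere c R, u z ≤ v z) :
    PI u c R w ≤ PI v c R w := by
  have hR := pos_of_mem_ball hw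
  refine Real.circleAverage_mono (ker_ci hw hu) (ker_ci hw hv) fun z hz => ?_
  rw [abs_of_pos hR] at hz
  have h1 := le_re_herglotzRieszKernel hz hw
  have h2 : 0 ≤ (R - ‖w - c‖) / (R + ‖w - c‖) :=
    div_nonneg (sub_nonneg.2 (mem_ball_iff_norm.1 hw).le) (by positivity)
  simp only [Pi.smul_apply', Function.comp_apply, smul_eq_mul, herglotzRieszKernel_def]
  exact mul_le_mul_of_nonneg_left (h z hz) (h2.trans h1)

lemma sph_c (hR : 0 < R) (hh : HarmonicContOnCl h (ball c R)) : ContinuousOn h (sphere c R) :=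
  hh.2.mono (by rw [closure_ball c hR.ne']; exact sphere_subset_closedBall)

lemma PI_le (hw : w ∈ ball c R) (hu : ContinuousOn u (sphere c R))
    (hh : HarmonicContOnCl h (ball c R)) (e : ∀ z ∈ sphere c R, u z ≤ h z) : PI u c R w ≤ h w := by
  rw [← hh.circleAverage_re_herglotzRieszKernel_smul hw]
  exact PI_mono hw hu (sph_c (pos_of_mem_ball hw) hh) e

lemma le_PI (hw : w ∈ ball c R) (hu : ContinuousOn u (sphere c R))
    (hh : HarmonicContOnCl h (ball c R)) (e : ∀ z ∈ sphere c R, h z ≤ u z) : h w ≤ PI u c R w := by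
  rw [← hh.circleAverage_re_herglotzRieszKernel_smul hw]
  exact PI_mono hw (sph_c (pos_of_mem_ball hw) hh) hu e

lemma harnack (hw : w ∈ ball c R) (hw2 : ‖w - c‖ ≤ R / 2) (hh : HarmonicContOnCl h (ball c R))
    (e : ∀ z ∈ sphere c R, 0 ≤ h z) : h w ≤ 3 * h c := by
  have hR := pos_of_mem_ball hw
  have hc := sph_c hR hh
  rw [← hh.circleAverage_re_herglotzRieszKernel_smul hw]
  have h0 : Real.circleAverage h c R = h c :=
    HarmonicContOnCl.circleAverage_eq (by rwa [abs_of_pos hR])
  rw [← h0, ← smul_eq_mul, ← Real.circleAverage_smul]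
  refine Real.circleAverage_mono (ker_ci hw hc)
    (ContinuousOn.circleIntegrable hR.le (hc.const_smul (3 : ℝ))) fun z hz => ?_
  rw [abs_of_pos hR] at hz
  have h1 := re_herglotzRieszKernel_le hz hw
  have h2 : (R + ‖w - c‖) / (R - ‖w - c‖) ≤ 3 := by
    rw [div_le_iff₀ (by linarith)]; linarith
  simp only [Pi.smul_apply', Function.comp_apply, smul_eq_mul, herglotzRieszKernel_def,
    Pi.smul_apply]
  exact mul_le_mul_of_nonneg_right (h1.trans h2) (e z hz)

lemma hre {F : ℂ → ℂ} (hF : Differentiable ℂ F) (G : Set ℂ) :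
    HarmonicContOnCl (fun z => (F z).re) G :=
  ⟨fun z _ => (hF.analyticAt z).harmonicAt_re,
    (Complex.continuous_re.comp hF.continuous).continuousOn⟩

open Classical in
/-- Poisson modification -/
noncomputable def PM (u : ℂ → ℝ) (c : ℂ) (R : ℝ) (w : ℂ) : ℝ :=
  if w ∈ ball c R then PI u c R w else u w

lemma PM_in (hw : w ∈ ball c R) : PM u c R w = PI u c R w := if_pos hw
lemma PM_out (hw : w ∉ ball c R) : PM u c R w = u w := if_neg hw

lemma PM_harm (hR : 0 < R) (hu : Continuous u) : HarmonicOnNhd (PM u c R) (ball c R) := by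
  intro w hw
  refine (harmonicAt_congr_nhds ?_).1 (PI_harm hR hu.continuousOn w hw)
  filter_upwards [isOpen_ball.mem_nhds hw] with z hz using (PM_in hz).symm

lemma PM_cont (hR : 0 < R) (hu : Continuous u) : Continuous (PM u c R) := by
  refine continuous_iff_continuousAt.2 fun w => ?_
  rcases lt_trichotomy (dist w c) R with h | h | h
  · exact (PM_harm hR hu w h).1.continuousAt
  · have hw : w ∉ ball c R := by simp [h]
    rw [Metric.continuousAt_iff']
    intro ε hε
    obtain ⟨B, hB⟩ := (isCompact_sphere c R).exists_bound_of_continuousOn hu.continuousOn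
    obtain ⟨δ, hδ, hd⟩ := Metric.continuousAt_iff.1 (hu.continuousAt (x := w)) (ε / 2) (by linarith)
    have hB0 : 0 ≤ B := (norm_nonneg _).trans (hB w h)
    set A := 2 * B / δ ^ 2 with hA
    have hA0 : 0 ≤ A := by positivity
    set l : ℂ → ℝ := fun z => (2 * R ^ 2 - 2 * ((z - c) * (starRingEnd ℂ) (w - c)) : ℂ).re with hl
    have lh : HarmonicContOnCl l (ball c R) := hre (by fun_prop) _
    have lc : Continuous l := by rw [hl]; fun_prop
    have ls : ∀ z ∈ sphere c R, l z = dist z w ^ 2 := fun z hz => by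
      have h1 : ‖z - c‖ ^ 2 = R ^ 2 := by rw [← dist_eq_norm, mem_sphere.1 hz]
      have h2 : ‖w - c‖ ^ 2 = R ^ 2 := by rw [← dist_eq_norm, h]
      rw [dist_eq_norm]
      simp only [Complex.sq_norm, Complex.normSq_apply, Complex.sub_re, Complex.sub_im] at h1 h2 ⊢
      simp [hl, ← Complex.ofReal_pow]
      nlinarith
    have key : ∀ z ∈ sphere c R, |u z - u w| ≤ ε / 2 + A * l z := fun z hz => by
      rw [ls z hz]
      by_cases h1 : dist z w < δ
      · have := hd h1
        rw [Real.dist_eq] at this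
        have : 0 ≤ A * dist z w ^ 2 := by positivity
        linarith
      · push Not at h1
        have h2 : A * δ ^ 2 ≤ A * dist z w ^ 2 := by gcongr
        have h3 : A * δ ^ 2 = 2 * B := by rw [hA]; field_simp
        have h4 := hB z hz
        have h5 := hB w h
        rw [Real.norm_eq_abs] at h4 h5
        have := abs_sub (u z) (u w)
        linarith
    have lw : l w = 0 := by rw [ls w h]; simp
    have e1 : ∀ᶠ z in 𝓝 w, A * l z < ε / 2 := by
      have : ContinuousAt (fun z => A * l z) w := by fun_prop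
      exact this.eventually_lt continuousAt_const (by rw [lw]; linarith)
    filter_upwards [e1, ball_mem_nhds w hδ] with z h1 h2
    rw [PM_out hw]
    by_cases hz : z ∈ ball c R
    · rw [PM_in hz, Real.dist_eq, abs_lt]
      have a1 := PI_le hz hu.continuousOn (((lh.const_smul A).const_add (u w + ε / 2)))
        fun y hy => by
          have := (abs_le.1 (key y hy)).2
          simp only [Pi.add_apply, Pi.smul_apply, smul_eq_mul, Pi.natCast_def]
          change u y ≤ u w + ε / 2 + A * l y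
          linarith
      have a2 := le_PI hz hu.continuousOn (((lh.const_smul A).const_sub (u w - ε / 2)))
        fun y hy => by
          have := (abs_le.1 (key y hy)).1
          change u w - ε / 2 - A * l y ≤ u y
          linarith
      change _ ≤ u w + ε / 2 + A * l z at a1
      change u w - ε / 2 - A * l z ≤ _ at a2
      constructor <;> linarith
    · rw [PM_out hz]
      have := hd h2
      linarith
  · refine (continuousAt_congr ?_).1 (hu.continuousAt (x := w))
    filter_upwards [isClosed_closedBall.isOpen_compl.mem_nhds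
      (show w ∈ (closedBall c R)ᶜ from not_le.2 h)] with z hz
    exact (PM_out fun k => hz (ball_subset_closedBall k)).symm

lemma PM_hc (hR : 0 < R) (hu : Continuous u) : HarmonicContOnCl (PM u c R) (ball c R) :=
  ⟨PM_harm hR hu, (PM_cont hR hu).continuousOn⟩

variable {Ω : Set ℂ}

lemma le_PM (hR : 0 < R) (hu : Continuous u) (hs : Sub Ω u) (hb : ball c R ⊆ Ω) (w : ℂ) :
    u w ≤ PM u c R w := by
  by_cases hw : w ∈ ball c R
  · refine hs _ isOpen_ball hb _ (PM_hc hR hu) (fun z hz => ?_) w hw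
    rw [isOpen_ball.frontier_eq] at hz
    exact (PM_out hz.2).ge
  · exact (PM_out hw).ge

lemma PM_sub (hR : 0 < R) (hu : Continuous u) (hs : Sub Ω u) (hb : ball c R ⊆ Ω) :
    Sub Ω (PM u c R) := by
  intro G ho hG h hh hf z hz
  have h1 := hs G ho hG h hh fun y hy => (le_PM hR hu hs hb y).trans (hf y hy)
  by_cases hw : z ∈ ball c R
  · refine hle (ho.inter isOpen_ball) (isBounded_ball.subset inter_subset_right)
      ((PM_hc hR hu).mono inter_subset_right) (hh.mono inter_subset_left) (fun y hy => ?_) ⟨hz, hw⟩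
    rw [(ho.inter isOpen_ball).frontier_eq] at hy
    by_cases h2 : y ∈ G
    · rw [PM_out fun k => hy.2 ⟨h2, k⟩]
      exact h1 y h2
    · exact hf y (by rw [ho.frontier_eq]; exact ⟨closure_mono inter_subset_left hy.1, h2⟩)
  · rw [PM_out hw]
    exact h1 z hz

/-- Perron's method -/
theorem perron (ho : IsOpen Ω) (hb : Bornology.IsBounded Ω)
    (bar : ∀ ζ ∉ Ω, ∃ h : ℂ → ℝ, HarmonicContOnCl h Ω ∧ (∀ z ∈ closure Ω, q z ≤ h z) ∧ h ζ = q ζ) :
    ∃ U : ℂ → ℝ, HarmonicContOnCl U Ω ∧ (∀ z ∉ Ω, U z = q z) ∧ ∀ z, q z ≤ U z := by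
  set S : Set (ℂ → ℝ) := {u | Continuous u ∧ Sub Ω u ∧ ∀ z ∉ Ω, u z = q z} with hS
  have qS : q ∈ S := ⟨q_cont, q_sub hb, fun _ _ => rfl⟩
  haveI : Nonempty S := ⟨⟨q, qS⟩⟩
  have ub : ∀ h : ℂ → ℝ, HarmonicContOnCl h Ω → (∀ z ∈ closure Ω, q z ≤ h z) →
      ∀ u ∈ S, ∀ z ∈ closure Ω, u z ≤ h z := fun h hh e u hu z hz => by
    by_cases k : z ∈ Ω
    · refine hu.2.1 Ω ho subset_rfl h hh (fun y hy => ?_) z k
      rw [ho.frontier_eq] at hy
      rw [hu.2.2 y hy.2]
      exact e y hy.1
    · rw [hu.2.2 z k]; exact e z hz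
  obtain ⟨M, hM⟩ := hb.isCompact_closure.exists_bound_of_continuousOn q_cont.continuousOn
  have bdd : ∀ z, BddAbove (range fun u : S => u.1 z) := fun z => by
    refine ⟨max M (q z), ?_⟩
    rintro _ ⟨u, rfl⟩
    by_cases k : z ∈ Ω
    · exact (ub (fun _ => M) harmonicContOnCl_const
        (fun y hy => (le_abs_self _).trans (hM y hy)) u u.2 z (subset_closure k)).trans
        (le_max_left _ _)
    · exact (u.2.2.2 z k).le.trans (le_max_right _ _)
  set U : ℂ → ℝ := fun z => ⨆ u : S, u.1 z with hU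
  have leU : ∀ u ∈ S, ∀ z, u z ≤ U z := fun u hu z => le_ciSup (bdd z) ⟨u, hu⟩
  have Uout : ∀ z ∉ Ω, U z = q z := fun z hz =>
    le_antisymm (ciSup_le fun u => (u.2.2.2 z hz).le) (leU q qS z)
  have PMS : ∀ u ∈ S, ∀ c R, 0 < R → ball c R ⊆ Ω → PM u c R ∈ S := fun u hu c R hR hc =>
    ⟨PM_cont hR hu.1, PM_sub hR hu.1 hu.2.1 hc, fun z hz => by
      rw [PM_out fun k => hz (hc k), hu.2.2 z hz]⟩
  have maxS : ∀ u ∈ S, ∀ v ∈ S, (fun z => max (u z) (v z)) ∈ S := fun u hu v hv =>
    ⟨hu.1.max hv.1, fun G h1 h2 h h3 h4 z hz => max_le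
      (hu.2.1 G h1 h2 h h3 (fun y hy => (le_max_left _ _).trans (h4 y hy)) z hz)
      (hv.2.1 G h1 h2 h h3 (fun y hy => (le_max_right _ _).trans (h4 y hy)) z hz),
      fun z hz => by simp only [hu.2.2 z hz, hv.2.2 z hz, max_self]⟩
  have harm : HarmonicOnNhd U Ω := fun c hc => by
    obtain ⟨R, hR, hball⟩ := Metric.isOpen_iff.1 ho c hc
    have app : ∀ ε > 0, ∃ g : ℂ → ℝ, Continuous g ∧ HarmonicOnNhd g (ball c R) ∧
        ∀ w ∈ closedBall c (R / 2), g w ≤ U w ∧ U w ≤ g w + ε := fun ε hε => by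
      obtain ⟨u, hu⟩ := exists_lt_of_lt_ciSup (show U c - ε / 3 < U c by linarith)
      refine ⟨PM u.1 c R, PM_cont hR u.2.1, PM_harm hR u.2.1, fun w hw =>
        ⟨leU _ (PMS _ u.2 c R hR hball) w, ciSup_le fun v => ?_⟩⟩
      have hm := maxS _ u.2 _ v.2
      have hw1 : w ∈ ball c R := closedBall_subset_ball (by linarith) hw
      have h1 := harnack hw1 (mem_closedBall_iff_norm.1 hw)
        ((PM_hc hR hm.1).sub (PM_hc hR u.2.1)) fun z hz => by
          have hz' : z ∉ ball c R := by simp [mem_sphere.1 hz]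
          simp only [Pi.sub_apply, PM_out hz', sub_nonneg, le_max_left]
      simp only [Pi.sub_apply] at h1
      have h2 := le_PM hR hm.1 hm.2.1 hball w
      have h3 := leU _ (PMS _ hm c R hR hball) c
      have h4 := le_PM hR u.2.1 u.2.2.1 hball c
      have h5 := le_max_right (u.1 w) (v.1 w)
      linarith
    have hR2 : 0 < R / 2 := by linarith
    have Uc : ContinuousOn U (closedBall c (R / 2)) := by
      refine continuousOn_of_uniform_approx_of_continuousOn fun V hV => ?_
      obtain ⟨ε, hε, hV⟩ := Metric.mem_uniformity_dist.1 hV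
      obtain ⟨g, g1, -, g3⟩ := app (ε / 2) (by linarith)
      refine ⟨g, g1.continuousOn, fun w hw => hV ?_⟩
      rw [Real.dist_eq, abs_lt]
      constructor <;> linarith [(g3 w hw).1, (g3 w hw).2]
    have Us := Uc.mono sphere_subset_closedBall
    refine (harmonicAt_congr_nhds ?_).1 (PI_harm hR2 Us c (mem_ball_self hR2))
    filter_upwards [ball_mem_nhds c hR2] with w hw
    refine eq_of_forall_dist_le fun ε hε => ?_
    obtain ⟨g, g1, g2, g3⟩ := app ε hε
    have gh : HarmonicContOnCl g (ball c (R / 2)) :=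
      ⟨g2.mono (ball_subset_ball (by linarith)), g1.continuousOn⟩
    have a1 := PI_le hw Us (gh.add_const ε) fun z hz => (g3 z (sphere_subset_closedBall hz)).2
    have a2 := le_PI hw Us gh fun z hz => (g3 z (sphere_subset_closedBall hz)).1
    change _ ≤ g w + ε at a1
    have := g3 w (ball_subset_closedBall hw)
    rw [Real.dist_eq, abs_le]
    constructor <;> linarith [this.1, this.2]
  refine ⟨U, ⟨harm, fun ζ hζ => ?_⟩, Uout, leU q qS⟩
  by_cases k : ζ ∈ Ω
  · exact (harm ζ k).1.continuousAt.continuousWithinAt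
  · obtain ⟨h, h1, h2, h3⟩ := bar ζ k
    have t1 : Tendsto q (𝓝[closure Ω] ζ) (𝓝 (U ζ)) := by
      rw [Uout ζ k]; exact q_cont.continuousWithinAt
    have t2 : Tendsto h (𝓝[closure Ω] ζ) (𝓝 (U ζ)) := by
      rw [Uout ζ k, ← h3]; exact h1.2 ζ hζ
    refine tendsto_of_tendsto_of_tendsto_of_le_of_le' t1 t2 (Eventually.of_forall (leU q qS)) ?_
    filter_upwards [self_mem_nhdsWithin] with z hz
    exact ciSup_le fun u => ub h h1 h2 u u.2 z hz

end Pool.Agent.H.Tors
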