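import Mathlib

set_option autoImplicit false

open Set Metric Filter Topology

namespace Pool.Agent.H.Tors

/-- the S-shaped domain in real coordinates -/
def O (x y : ℝ) : Prop :=
  (-1 < x ∧ x < 1 ∧ -200 < y ∧ y < 200) ∨
  ((x + 1) ^ 2 + (y - 200) ^ 2 < 4 ∧ (x ≠ -1 ∨ 200 < y)) ∨
  ((x - 1) ^ 2 + (y + 200) ^ 2 < 4 ∧ (x ≠ 1 ∨ y < -200))

/-- the S-shaped domain -/
def Om : Set ℂ := {z | O z.re z.im}

lemma O_neg {x y : ℝ} (h : O x y) : O (-x) (-y) := by
  rcases h with ⟨a, b, c, d⟩ | ⟨a, b⟩ | ⟨a, b⟩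
  · exact Or.inl ⟨by linarith, by linarith, by linarith, by linarith⟩
  · refine Or.inr (Or.inr ⟨by nlinarith, b.imp (fun h k => h (by linarith)) fun h => by linarith⟩)
  · refine Or.inr (Or.inl ⟨by nlinarith, b.imp (fun h k => h (by linarith)) fun h => by linarith⟩)

lemma Om_neg {z : ℂ} (h : z ∈ Om) : -z ∈ Om := O_neg h

lemma Om_open : IsOpen Om := by
  have a : ∀ f g : ℂ → ℝ, Continuous f → Continuous g → IsOpen {z | f z < g z} :=
    fun f g hf hg => isOpen_lt hf hg
  have b : ∀ c : ℝ, IsOpen {z : ℂ | z.re ≠ c} := fun c => isOpen_ne_fun (by fun_prop) (by fun_prop)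
  unfold Om O
  refine IsOpen.union (IsOpen.inter (a _ _ ?_ ?_) (IsOpen.inter (a _ _ ?_ ?_)
    (IsOpen.inter (a _ _ ?_ ?_) (a _ _ ?_ ?_)))) (IsOpen.union
    (IsOpen.inter (a _ _ ?_ ?_) (IsOpen.union (b _) (a _ _ ?_ ?_)))
    (IsOpen.inter (a _ _ ?_ ?_) (IsOpen.union (b _) (a _ _ ?_ ?_)))) <;> fun_prop

lemma O_bd {x y : ℝ} (h : O x y) : -3 < x ∧ x < 3 ∧ -202 < y ∧ y < 202 := by
  rcases h with ⟨a, b, c, d⟩ | ⟨a, b⟩ | ⟨a, b⟩
  · exact ⟨by linarith, by linarith, by linarith, by linarith⟩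
  · exact ⟨by nlinarith [sq_nonneg (y - 200)], by nlinarith [sq_nonneg (y - 200)],
      by nlinarith [sq_nonneg (x + 1)], by nlinarith [sq_nonneg (x + 1)]⟩
  · exact ⟨by nlinarith [sq_nonneg (y + 200)], by nlinarith [sq_nonneg (y + 200)],
      by nlinarith [sq_nonneg (x - 1)], by nlinarith [sq_nonneg (x - 1)]⟩

lemma Om_norm {z : ℂ} (h : z ∈ Om) : ‖z‖ ≤ 205 := by
  obtain ⟨a, b, c, d⟩ := O_bd h
  have := Complex.norm_le_abs_re_add_abs_im z
  have h1 : |z.re| ≤ 3 := abs_le.2 ⟨a.le, b.le⟩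
  have h2 : |z.im| ≤ 202 := abs_le.2 ⟨c.le, d.le⟩
  linarith

lemma Om_bdd : Bornology.IsBounded Om := isBounded_iff_forall_norm_le.2 ⟨205, fun _ => Om_norm⟩

lemma O_left {x y : ℝ} (h : O x y) (hx : x ≤ -1) :
    (x + 1) ^ 2 + (y - 200) ^ 2 < 4 ∧ (x ≠ -1 ∨ 200 < y) := by
  rcases h with ⟨a, -⟩ | h | ⟨a, -⟩
  · linarith
  · exact h
  · nlinarith [sq_nonneg (y + 200)]

lemma O_top {x y : ℝ} (h : O x y) (hy : 200 ≤ y) :
    (x + 1) ^ 2 + (y - 200) ^ 2 < 4 ∧ (x ≠ -1 ∨ 200 < y) := by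
  rcases h with ⟨-, -, -, a⟩ | h | ⟨a, -⟩
  · linarith
  · exact h
  · nlinarith [sq_nonneg (x - 1)]

lemma vert_aux {x y y1 y2 : ℝ} (h1 : O x y1) (h2 : O x y2) (a : y1 ≤ y) (b : y ≤ y2)
    (c : x ≤ -1 ∨ (200 ≤ y ∧ -1 < x)) : O x y := by
  rcases c with c | ⟨c, e⟩
  · obtain ⟨k1, k2⟩ := O_left h1 c
    obtain ⟨k3, -⟩ := O_left h2 c
    refine Or.inr (Or.inl ⟨?_, k2.imp id fun h => by linarith⟩)
    rcases le_total y 200 with d | d <;> nlinarith
  · obtain ⟨k3, -⟩ := O_top h2 (by linarith)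
    exact Or.inr (Or.inl ⟨by nlinarith, Or.inl e.ne'⟩)

lemma vert {x y y1 y2 : ℝ} (h1 : O x y1) (h2 : O x y2) (a : y1 ≤ y) (b : y ≤ y2) : O x y := by
  by_cases c : x ≤ -1 ∨ (200 ≤ y ∧ -1 < x)
  · exact vert_aux h1 h2 a b c
  by_cases d : -x ≤ -1 ∨ (200 ≤ -y ∧ -1 < -x)
  · simpa using O_neg (vert_aux (O_neg h2) (O_neg h1) (neg_le_neg b) (neg_le_neg a) d)
  push Not at c d
  refine Or.inl ⟨c.1, by linarith [d.1], ?_, ?_⟩
  · by_contra k
    linarith [d.2 (by linarith), d.1]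
  · by_contra k
    linarith [c.2 (by linarith), c.1]

/-- a continuous selection -/
noncomputable def hh (x : ℝ) : ℝ := min (200 + (x + 3) / 2) (max (-201 * x) (-200 + (x - 3) / 2))

@[fun_prop] lemma hh_cont : Continuous hh := by unfold hh; fun_prop

lemma hh_mem {x : ℝ} (a : -3 < x) (b : x < 3) : O x (hh x) := by
  unfold hh
  rcases le_total x (-1) with c | c
  · rw [min_eq_left (le_max_of_le_left (by linarith))]
    exact Or.inr (Or.inl ⟨by nlinarith, Or.inr (by linarith)⟩)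
  rcases le_total 1 x with d | d
  · rw [max_eq_right (by linarith), min_eq_right (by linarith)]
    exact Or.inr (Or.inr ⟨by nlinarith, Or.inr (by linarith)⟩)
  rw [max_eq_left (by linarith), min_eq_right (by linarith)]
  by_cases e : 200 < -201 * x
  · exact Or.inr (Or.inl ⟨by nlinarith, Or.inr e⟩)
  by_cases f : -201 * x < -200
  · exact Or.inr (Or.inr ⟨by nlinarith, Or.inr f⟩)
  by_cases g : -201 * x = 200
  · exact Or.inr (Or.inl ⟨by nlinarith, Or.inl (by intro k; linarith)⟩)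
  by_cases g' : -201 * x = -200
  · exact Or.inr (Or.inr ⟨by nlinarith, Or.inl (by intro k; linarith)⟩)
  exact Or.inl ⟨by linarith, by linarith, lt_of_le_of_ne (by linarith) (Ne.symm g'),
    lt_of_le_of_ne (by linarith) g⟩

lemma hom_mem {x y t : ℝ} (h : O x y) (t0 : 0 ≤ t) (t1 : t ≤ 1) :
    O (min 1 (2 - 2 * t) * x) (hh (min 1 (2 - 2 * t) * x) + max 0 (1 - 2 * t) * (y - hh x)) := by
  obtain ⟨a, b, -, -⟩ := O_bd h
  rcases le_total t (1 / 2) with c | c
  · rw [min_eq_left (by linarith), max_eq_right (by linarith), one_mul]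
    rcases le_total y (hh x) with d | d
    · exact vert h (hh_mem a b) (by nlinarith) (by nlinarith)
    · exact vert (hh_mem a b) h (by nlinarith) (by nlinarith)
  · rw [min_eq_right (by linarith), max_eq_left (by linarith), zero_mul, add_zero]
    exact hh_mem (by nlinarith) (by nlinarith)

lemma zero_mem : (0 : ℂ) ∈ Om := Or.inl (by norm_num)

lemma Om_sc : SimplyConnectedSpace Om := by
  haveI : ContractibleSpace Om := by
    refine (contractible_iff_id_nullhomotopic Om).2 ⟨⟨0, zero_mem⟩, ⟨⟨⟨fun p =>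
      ⟨(min 1 (2 - 2 * (p.1 : ℝ)) * p.2.1.re : ℝ) + (hh (min 1 (2 - 2 * (p.1 : ℝ)) * p.2.1.re) +
        max 0 (1 - 2 * (p.1 : ℝ)) * (p.2.1.im - hh p.2.1.re) : ℝ) * Complex.I, ?_⟩, ?_⟩, ?_, ?_⟩⟩⟩
    · have := hom_mem p.2.2 p.1.2.1 p.1.2.2
      simpa only [Om, mem_setOf_eq, Complex.add_re, Complex.ofReal_re, Complex.mul_re, Complex.I_re,
        Complex.ofReal_im, Complex.I_im, mul_zero, zero_mul, sub_zero, add_zero, Complex.add_im,
        Complex.mul_im, mul_one, zero_add] using this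
    · exact Continuous.subtype_mk (by fun_prop) _
    · intro z
      ext1
      apply Complex.ext <;> simp
    · intro z
      ext1
      apply Complex.ext <;> simp [hh] <;> norm_num
  infer_instance

/-- distance to the complement -/
noncomputable def d (w : ℂ) : ℝ := Metric.infDist w Omᶜ

/-- the slit tip -/
def p : ℂ := ⟨-1, 200⟩

lemma p_out : p ∉ Om := fun h => by
  have := (O_left h (by simp [p])).2
  simp [p] at this

lemma d_le {z w : ℂ} (h : w ∉ Om) : d z ≤ dist z w := infDist_le_dist_of_mem h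

lemma le_d {z : ℂ} {ρ : ℝ} (h : ∀ w, dist z w < ρ → w ∈ Om) : ρ ≤ d z :=
  (le_infDist ⟨p, p_out⟩).2 fun w hw => not_lt.1 fun k => hw (h w k)

lemma d_neg (z : ℂ) : d (-z) = d z := by
  have : ∀ z : ℂ, d (-z) ≤ d z := fun z => le_d fun w hw => by
    by_contra k
    have := d_le (z := -z) (w := -w) fun h => k (by simpa using Om_neg h)
    rw [dist_neg_neg] at this
    linarith
  exact le_antisymm (this z) (by simpa using this (-z))

lemma dsq (z w : ℂ) : dist z w ^ 2 = (z.re - w.re) ^ 2 + (z.im - w.im) ^ 2 := by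
  rw [Complex.dist_eq_re_im, Real.sq_sqrt (by positivity)]

lemma dp (z : ℂ) : dist z p ^ 2 = (z.re + 1) ^ 2 + (z.im - 200) ^ 2 := by
  rw [dsq]; simp [p]

lemma dre (z w : ℂ) : |z.re - w.re| ≤ dist z w := by
  simpa [dist_eq_norm] using Complex.abs_re_le_norm (z - w)

lemma dhor (z : ℂ) (a : ℝ) : dist z ⟨a, z.im⟩ = |z.re - a| := by
  rw [Complex.dist_eq_re_im]; simp [Real.sqrt_sq_eq_abs]

lemma slit_out {y : ℝ} (h : y ≤ 200) : (⟨-1, y⟩ : ℂ) ∉ Om := fun k => by
  have := (O_left k le_rfl).2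
  simp at this
  linarith

lemma d1_aux {x y a b ρ : ℝ} (h1 : ρ ≤ 1 - x) (h2 : ρ ≤ 1 + x) (h3 : y ≤ 200) (h4 : 200 ≤ b)
    (h5 : (x - a) ^ 2 + (y - b) ^ 2 < ρ ^ 2) (h6 : |x - a| < ρ) : (a + 1) ^ 2 + (b - 200) ^ 2 < 4 := by
  obtain ⟨k1, k2⟩ := abs_lt.1 h6
  have k3 : (b - 200) ^ 2 ≤ (y - b) ^ 2 := by nlinarith
  have k4 : (a - x) * (1 + x) ≤ ρ * (1 + x) := by nlinarith
  nlinarith

lemma d1 {z : ℂ} (hx : |z.re| ≤ 1) (h1 : -200 ≤ z.im) (h2 : z.im ≤ 200) : d z = 1 - |z.re| := by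
  obtain ⟨x1, x2⟩ := abs_le.1 hx
  refine le_antisymm ?_ (le_d fun w hw => ?_)
  · have a := d_le (z := z) (slit_out h2)
    have b := d_le (z := z) (w := ⟨1, z.im⟩) fun k =>
      slit_out (y := -z.im) (by linarith) (by simpa [Om] using O_neg k)
    rw [dhor] at a b
    rw [abs_of_nonneg (by linarith)] at a
    rw [abs_of_nonpos (by linarith)] at b
    rcases abs_cases z.re with h | h <;> linarith
  · have a := (dre z w).trans_lt hw
    have b : (z.re - w.re) ^ 2 + (z.im - w.im) ^ 2 < (1 - |z.re|) ^ 2 := by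
      rw [← dsq]; exact pow_lt_pow_left₀ hw dist_nonneg two_ne_zero
    have c1 := le_abs_self z.re
    have c2 := neg_abs_le z.re
    obtain ⟨a1, a2⟩ := abs_lt.1 a
    by_cases e : 200 ≤ w.im
    · exact Or.inr (Or.inl ⟨d1_aux (by linarith) (by linarith) h2 e b a,
        Or.inl (by intro k; linarith)⟩)
    by_cases f : 200 ≤ -w.im
    · have := d1_aux (x := -z.re) (y := -z.im) (a := -w.re) (ρ := 1 - |z.re|) (by linarith)
        (by linarith) (by linarith) f (by nlinarith) (abs_lt.2 ⟨by linarith, by linarith⟩)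
      exact Or.inr (Or.inr ⟨by nlinarith, Or.inl (by intro k; linarith)⟩)
    exact Or.inl ⟨by linarith, by linarith, by linarith, by linarith⟩

lemma d_rad {z : ℂ} (h0 : 0 < dist z p) (h2 : dist z p < 2) (h : z.re ≤ -1 ∨ 200 ≤ z.im) :
    d z ≤ 2 - dist z p := by
  set r := dist z p with hr
  have s0 : 0 < 2 / r := by positivity
  have e : dist z (p + (2 / r : ℝ) * (z - p)) = 2 - r := by
    rw [dist_eq_norm, show z - (p + (2 / r : ℝ) * (z - p)) = ((1 - 2 / r : ℝ) : ℂ) * (z - p) by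
      push_cast; ring, norm_mul, Complex.norm_real, ← dist_eq_norm z p, ← hr, Real.norm_eq_abs,
      abs_of_nonpos (by rw [sub_nonpos, le_div_iff₀ h0]; linarith)]
    field_simp
    ring
  rw [← e]
  refine d_le fun k => ?_
  have e2 : dist (p + (2 / r : ℝ) * (z - p)) p = 2 := by
    rw [dist_eq_norm, add_sub_cancel_left, norm_mul, Complex.norm_real, ← dist_eq_norm, ← hr,
      Real.norm_eq_abs, abs_of_pos s0]
    field_simp
  have e3 := dp (p + (2 / r : ℝ) * (z - p))
  rw [e2] at e3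
  generalize 2 / r = s at *
  rcases h with h | h
  · have := (O_left k (by simp [p]; nlinarith)).1
    linarith
  · have := (O_top k (by simp [p]; nlinarith)).1
    linarith

lemma disc {z w : ℂ} (h : dist z w < 2 - dist z p) : (w.re + 1) ^ 2 + (w.im - 200) ^ 2 < 4 := by
  have := dist_triangle_left w p z
  rw [← dp]
  nlinarith [dist_nonneg (x := w) (y := p)]

lemma d2 {z : ℂ} (h0 : 0 < dist z p) (h2 : dist z p < 2) (h : 200 ≤ z.im) :
    d z = min (dist z p) (2 - dist z p) := by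
  refine le_antisymm (le_min (d_le p_out) (d_rad h0 h2 (Or.inr h))) (le_d fun w hw => ?_)
  rw [lt_min_iff] at hw
  refine Or.inr (Or.inl ⟨disc hw.2, ?_⟩)
  by_contra k
  push Not at k
  have := pow_lt_pow_left₀ hw.1 dist_nonneg two_ne_zero
  rw [dp, dsq, k.1] at this
  nlinarith [k.2]

lemma d3 {z : ℂ} (h1 : z.re < -1) (h2 : dist z p < 2) (h : z.im ≤ 200) :
    d z = min (-1 - z.re) (2 - dist z p) := by
  have h0 : 0 < dist z p := by
    refine dist_pos.2 fun k => ?_
    simp [k, p] at h1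
  refine le_antisymm (le_min ?_ (d_rad h0 h2 (Or.inl h1.le))) (le_d fun w hw => ?_)
  · have a := d_le (z := z) (slit_out h)
    rw [dhor, abs_of_nonpos (by linarith)] at a
    linarith
  · rw [lt_min_iff] at hw
    have := (abs_lt.1 ((dre z w).trans_lt hw.1)).1
    exact Or.inr (Or.inl ⟨disc hw.2, Or.inl (by intro k; linarith)⟩)

lemma nolm {z c : ℂ} (h : ∀ t : ℝ, 0 < t → t ≤ 1 → d z < d (z + t * (c - z))) :
    ¬ IsLocalMax d z := fun hm => by
  have lc : Continuous fun t : ℝ => z + t * (c - z) := by fun_prop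
  have lt : Tendsto (fun t : ℝ => z + t * (c - z)) (𝓝[>] 0) (𝓝 z) := by
    simpa using (lc.tendsto 0).mono_left nhdsWithin_le_nhds
  obtain ⟨t, h1, h2⟩ := ((lt.eventually hm).and (Ioc_mem_nhdsGT zero_lt_one)).exists
  exact absurd (h t h2.1 h2.2) (not_lt.2 h1)

/-- upper half of the ridge -/
def Mt (z : ℂ) : Prop := (z.re = 0 ∧ -200 ≤ z.im ∧ z.im ≤ 200) ∨ (dist z p = 1 ∧ 200 ≤ z.im)

lemma top {z : ℂ} (hz : z ∈ Om) (hy : 0 ≤ z.im) : d z ≤ 1 ∧ (IsLocalMax d z → Mt z) := by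
  have lt2 : (z.re + 1) ^ 2 + (z.im - 200) ^ 2 < 4 → dist z p < 2 := fun h => by
    rw [← dp] at h
    nlinarith [dist_nonneg (x := z) (y := p)]
  by_cases c : 200 ≤ z.im
  · obtain ⟨k1, k2⟩ := O_top hz c
    have h2 := lt2 k1
    have h0 : 0 < dist z p := dist_pos.2 fun k => p_out (k ▸ hz)
    have e := d2 h0 h2 c
    set r := dist z p with hr
    refine ⟨by rw [e, min_le_iff]; exact (le_total r 1).imp id fun h => by linarith, fun hm => ?_⟩
    by_contra k
    have r1 : r ≠ 1 := fun h => k (Or.inr ⟨h, c⟩)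
    refine nolm (c := p + (1 / r : ℝ) * (z - p)) (fun t t0 t1 => ?_) hm
    have s0 : 0 ≤ 1 - t + t / r := by have : 0 ≤ t / r := by positivity
                                      linarith
    have e1 : z + t * (p + (1 / r : ℝ) * (z - p) - z) = p + (1 - t + t / r : ℝ) * (z - p) := by
      push_cast; ring
    have e2 : dist (p + (1 - t + t / r : ℝ) * (z - p)) p = (1 - t) * r + t := by
      rw [dist_eq_norm, add_sub_cancel_left, norm_mul, Complex.norm_real, ← dist_eq_norm z p, ← hr,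
        Real.norm_eq_abs, abs_of_nonneg s0]
      field_simp
    rw [e1, e, d2 (by rw [e2]; nlinarith) (by rw [e2]; nlinarith) (by
      generalize 1 - t + t / r = s at *
      simp [p]; nlinarith), e2, lt_min_iff, min_lt_iff, min_lt_iff]
    rcases lt_or_gt_of_ne r1 with h | h
    · exact ⟨Or.inl (by nlinarith), Or.inl (by nlinarith)⟩
    · exact ⟨Or.inr (by nlinarith), Or.inr (by nlinarith)⟩
  push Not at c
  rcases lt_trichotomy z.re (-1) with a | a | a
  · have h2 := lt2 (O_left hz a.le).1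
    have e := d3 a h2 c.le
    set r := dist z p with hr
    have r0 : -1 - z.re < r := by
      have := dp z
      refine lt_of_pow_lt_pow_left₀ 2 dist_nonneg ?_
      nlinarith
    have m1 : min (-1 - z.re) (2 - r) < 1 := by
      rw [min_lt_iff]
      by_contra k
      push Not at k
      linarith [k.1, k.2]
    refine ⟨by rw [e]; exact m1.le, fun hm => ?_⟩
    exfalso
    refine nolm (c := p - 1) (fun t t0 t1 => ?_) hm
    have e2 : dist (z + t * (p - 1 - z)) p ≤ (1 - t) * r + t := by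
      rw [dist_eq_norm, show z + t * (p - 1 - z) - p = ((1 - t : ℝ) : ℂ) * (z - p) - (t : ℝ) by
        push_cast; ring]
      refine (norm_sub_le _ _).trans ?_
      rw [norm_mul, Complex.norm_real, Complex.norm_real, ← dist_eq_norm z p, ← hr, Real.norm_eq_abs,
        Real.norm_eq_abs, abs_of_nonneg (by linarith), abs_of_pos t0]
    have e3 : (z + t * (p - 1 - z)).re = z.re + t * (-2 - z.re) := by simp [p]; left; ring
    have e4 : (z + t * (p - 1 - z)).im = z.im + t * (200 - z.im) := by simp [p]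
    rw [e, d3 (by rw [e3]; nlinarith) (by nlinarith) (by rw [e4]; nlinarith), e3, lt_min_iff]
    have m2 := min_le_left (-1 - z.re) (2 - r)
    have m3 := min_le_right (-1 - z.re) (2 - r)
    constructor <;> nlinarith
  · exfalso
    rcases (O_left hz a.le).2 with h | h
    · exact h a
    · linarith
  · have b : z.re < 1 := by
      rcases hz with ⟨-, h, -⟩ | ⟨h, -⟩ | ⟨h, -⟩
      · exact h
      · nlinarith [sq_nonneg (z.im - 200)]
      · nlinarith [sq_nonneg (z.re - 1)]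
    have hx : |z.re| ≤ 1 := abs_le.2 ⟨a.le, b.le⟩
    have e := d1 hx (by linarith) c.le
    refine ⟨by rw [e]; linarith [abs_nonneg z.re], fun hm => ?_⟩
    by_contra k
    have x0 : 0 < |z.re| := abs_pos.2 fun h => k (Or.inl ⟨h, by linarith, c.le⟩)
    refine nolm (c := z.im * Complex.I) (fun t t0 t1 => ?_) hm
    have e3 : |(z + t * (z.im * Complex.I - z)).re| = (1 - t) * |z.re| := by
      rw [← abs_of_nonneg (show 0 ≤ 1 - t by linarith), ← abs_mul]
      congr 1
      simp; ring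
    have e4 : (z + t * (z.im * Complex.I - z)).im = z.im := by simp
    rw [e, d1 (by rw [e3]; nlinarith) (by rw [e4]; linarith) (by rw [e4]; exact c.le), e3]
    nlinarith

lemma d_le_one (z : ℂ) : d z ≤ 1 := by
  by_cases h : z ∈ Om
  · rcases le_total 0 z.im with a | a
    · exact (top h a).1
    · rw [← d_neg]; exact (top (Om_neg h) (by simpa using a)).1
  · exact (d_le h).trans (by simp)

lemma lm_neg {z : ℂ} (h : IsLocalMax d z) : IsLocalMax d (-z) := by
  have := IsLocalMax.comp_continuous (f := d) (g := fun w : ℂ => -w) (b := -z) (by simpa using h)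
    (by fun_prop)
  simpa [Function.comp_def, d_neg] using this

lemma Mt_mem {z : ℂ} (h : Mt z) : z ∈ Om ∧ IsLocalMax d z := by
  have e : d z = 1 := by
    rcases h with ⟨a, b, c⟩ | ⟨a, b⟩
    · rw [d1 (by simp [a]) b c, a]; simp
    · rw [d2 (by simp [a]) (by simp [a]) b, a]; norm_num
  refine ⟨?_, Eventually.of_forall fun w => by rw [e]; exact d_le_one w⟩
  by_contra k
  have := d_le (z := z) k
  rw [e, dist_self] at this
  linarith

lemma Mt_pre : IsPreconnected {z | Mt z} := by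
  have e : {z | Mt z} = (fun y : ℝ => (y : ℂ) * Complex.I) '' Icc (-200) 200 ∪
      (fun x : ℝ => (x : ℂ) + (200 + √(1 - (x + 1) ^ 2) : ℝ) * Complex.I) '' Icc (-2) 0 := by
    ext z
    constructor
    · rintro (⟨a, b, c⟩ | ⟨a, b⟩)
      · exact Or.inl ⟨z.im, ⟨b, c⟩, Complex.ext (by simp [a]) (by simp)⟩
      · have := dp z
        rw [a] at this
        refine Or.inr ⟨z.re, ⟨by nlinarith [sq_nonneg (z.im - 200)],
          by nlinarith [sq_nonneg (z.im - 200)]⟩, Complex.ext (by simp) ?_⟩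
        beta_reduce
        rw [show 1 - (z.re + 1) ^ 2 = (z.im - 200) ^ 2 by linarith, Real.sqrt_sq (by linarith)]
        simp
    · rintro (⟨y, ⟨a, b⟩, rfl⟩ | ⟨x, ⟨a, b⟩, rfl⟩)
      · exact Or.inl ⟨by simp, by simpa using a, by simpa using b⟩
      · refine Or.inr ⟨?_, by simp⟩
        refine (pow_left_inj₀ dist_nonneg zero_le_one two_ne_zero).1 ?_
        rw [dp]
        simp only [Complex.add_re, Complex.ofReal_re, Complex.mul_re, Complex.I_re,
          Complex.ofReal_im, Complex.I_im, mul_zero, zero_mul, sub_zero, add_zero, Complex.add_im,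
          Complex.mul_im, mul_one, zero_add, add_sub_cancel_left]
        rw [Real.sq_sqrt (by nlinarith)]
        ring
  rw [e]
  refine IsPreconnected.union (((200 : ℝ) : ℂ) * Complex.I) ⟨200, by norm_num, rfl⟩
    ⟨0, by norm_num, by simp⟩ (isPreconnected_Icc.image _ (by fun_prop))
    (isPreconnected_Icc.image _ (by fun_prop))

lemma S_pre : IsPreconnected {z : ℂ | z ∈ Om ∧ IsLocalMax d z} := by
  have e : {z : ℂ | z ∈ Om ∧ IsLocalMax d z} = {z | Mt z} ∪ (fun w => -w) '' {z | Mt z} := by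
    ext z
    constructor
    · rintro ⟨h1, h2⟩
      rcases le_total 0 z.im with a | a
      · exact Or.inl ((top h1 a).2 h2)
      · exact Or.inr ⟨-z, (top (Om_neg h1) (by simpa using a)).2 (lm_neg h2), by simp⟩
    · rintro (h | ⟨w, h, rfl⟩)
      · exact Mt_mem h
      · exact ⟨Om_neg (Mt_mem h).1, lm_neg (Mt_mem h).2⟩
  have z0 : Mt 0 := Or.inl (by norm_num)
  rw [e]
  exact IsPreconnected.union 0 z0 ⟨0, z0, by simp⟩ Mt_pre (Mt_pre.image _ (by fun_prop))

end Pool.Agent.H.Tors
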