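import Pool.Agent.H.MP_ab96c2_an.A
import Pool.Agent.H.MP_ab96c2_an.B

set_option autoImplicit false

open Set Metric Filter Topology InnerProductSpace

namespace Pool.Agent.H.Tors

/-- real part of the principal square root -/
noncomputable def Y (w : ℂ) : ℝ := √((‖w‖ + w.re) / 2)

@[fun_prop] lemma Y_cont : Continuous Y := by unfold Y; fun_prop

lemma Y_nonneg (w : ℂ) : 0 ≤ Y w := Real.sqrt_nonneg _

lemma Y_sq (w : ℂ) : Y w ^ 2 = (‖w‖ + w.re) / 2 :=
  Real.sq_sqrt (by linarith [Complex.abs_re_le_norm w, neg_abs_le w.re])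

lemma Y_harm (u c : ℂ) {G : Set ℂ} (h : ∀ z ∈ G, u * (z - c) ∈ Complex.slitPlane) :
    HarmonicContOnCl (fun z => Y (u * (z - c))) G := by
  refine ⟨fun z hz => ?_, by fun_prop⟩
  have : AnalyticAt ℂ (fun z : ℂ => (u * (z - c)) ^ (2⁻¹ : ℂ)) z :=
    AnalyticAt.cpow (by fun_prop) analyticAt_const (h z hz)
  simpa only [Complex.cpow_inv_two_re, Y] using this.harmonicAt_re

lemma Y_ineq {w : ℂ} {D : ℝ} (h : ‖w‖ ≤ D) : w.im ^ 2 ≤ 4 * D * (D + 1) * Y w := by
  have h1 := Y_sq w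
  have h2 := Y_nonneg w
  have h3 : ‖w‖ ^ 2 = w.re ^ 2 + w.im ^ 2 := by
    rw [Complex.sq_norm, Complex.normSq_apply]; ring
  obtain ⟨h4, h5⟩ := abs_le.1 (Complex.abs_re_le_norm w)
  have h6 := norm_nonneg w
  have h7 : Y w ≤ D + 1 := by nlinarith
  have h8 : w.im ^ 2 = (‖w‖ - w.re) * (2 * Y w ^ 2) := by rw [h1]; nlinarith
  have h9 : (‖w‖ - w.re) * (2 * Y w ^ 2) ≤ 2 * D * (2 * Y w ^ 2) :=
    mul_le_mul_of_nonneg_right (by linarith) (by positivity)
  have h10 : D * Y w * Y w ≤ D * Y w * (D + 1) :=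
    mul_le_mul_of_nonneg_left h7 (mul_nonneg (by linarith) h2)
  nlinarith

lemma cl_norm {z : ℂ} (h : z ∈ closure Om) : ‖z‖ ≤ 205 :=
  closure_minimal (t := {z : ℂ | ‖z‖ ≤ 205}) (fun _ => Om_norm)
    (isClosed_le (by fun_prop) (by fun_prop)) h

lemma cl_q {z : ℂ} (h : z ∈ closure Om) : q z ≤ 9 :=
  closure_minimal (t := {z : ℂ | q z ≤ 9}) (fun w hw => by
    obtain ⟨a, b, -⟩ := O_bd hw
    change w.re ^ 2 ≤ 9
    nlinarith) (isClosed_le (by fun_prop) (by fun_prop)) h

lemma bar_u {ζ u : ℂ} (hu : u = Complex.I ∨ u = -Complex.I)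
    (h : ∀ z ∈ Om, u * (z - ζ) ∈ Complex.slitPlane) :
    ∃ h : ℂ → ℝ, HarmonicContOnCl h Om ∧ (∀ z ∈ closure Om, q z ≤ h z) ∧ h ζ = q ζ := by
  set D := 205 + ‖ζ‖
  refine ⟨_, ((Y_harm u ζ h).const_smul (4 * D * (D + 1))).add
    (hre (F := fun z => 2 * ζ.re * z - ζ.re ^ 2) (by fun_prop) Om), fun z hz => ?_, ?_⟩
  · have h1 : ‖u * (z - ζ)‖ ≤ D := by
      have : ‖u‖ = 1 := by rcases hu with rfl | rfl <;> simp
      rw [norm_mul, this, one_mul]
      exact (norm_sub_le _ _).trans (by linarith [cl_norm hz])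
    have h2 := Y_ineq h1
    have h3 : (u * (z - ζ)).im ^ 2 = (z.re - ζ.re) ^ 2 := by
      rcases hu with rfl | rfl <;> simp <;> ring
    simp [q, ← Complex.ofReal_pow]
    nlinarith
  · simp [q, Y, ← Complex.ofReal_pow]
    ring

lemma bar (ζ : ℂ) (hζ : ζ ∉ Om) :
    ∃ h : ℂ → ℝ, HarmonicContOnCl h Om ∧ (∀ z ∈ closure Om, q z ≤ h z) ∧ h ζ = q ζ := by
  by_cases a : ∀ z ∈ Om, Complex.I * (z - ζ) ∈ Complex.slitPlane
  · exact bar_u (Or.inl rfl) a
  by_cases b : ∀ z ∈ Om, -Complex.I * (z - ζ) ∈ Complex.slitPlane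
  · exact bar_u (Or.inr rfl) b
  exfalso
  push Not at a b
  obtain ⟨z, hz, a⟩ := a
  obtain ⟨w, hw, b⟩ := b
  simp [Complex.mem_slitPlane_iff] at a b
  have h1 : O ζ.re z.im := by rw [← show z.re = ζ.re by linarith [a.2]]; exact hz
  have h2 : O ζ.re w.im := by rw [← show w.re = ζ.re by linarith [b.2]]; exact hw
  exact hζ (vert h2 h1 (by linarith [b.1]) (by linarith [a.1]))

variable {U : ℂ → ℝ}

lemma le_nine (h1 : HarmonicContOnCl U Om) (h2 : ∀ z ∉ Om, U z = q z) {z : ℂ}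
    (hz : z ∈ closure Om) : U z ≤ 9 := by
  by_cases k : z ∈ Om
  · refine hle Om_open Om_bdd h1 (harmonicContOnCl_const (c := 9)) (fun w hw => ?_) k
    rw [Om_open.frontier_eq] at hw
    rw [h2 w hw.2]
    exact cl_q hw.1
  · rw [h2 z k]; exact cl_q hz

lemma upper (h1 : HarmonicContOnCl U Om) (h2 : ∀ z ∉ Om, U z = q z) : U 0 ≤ 1.002 := by
  set G : Set ℂ := {z | -1 < z.re ∧ z.re < 1 ∧ -200 < z.im ∧ z.im < 200} with hG
  have ho : IsOpen G := (isOpen_lt continuous_const Complex.continuous_re).inter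
    ((isOpen_lt Complex.continuous_re continuous_const).inter
    ((isOpen_lt continuous_const Complex.continuous_im).inter
    (isOpen_lt Complex.continuous_im continuous_const)))
  have hs : G ⊆ Om := fun z hz => Or.inl hz
  have hc : closure G ⊆ {z | -1 ≤ z.re ∧ z.re ≤ 1 ∧ -200 ≤ z.im ∧ z.im ≤ 200} :=
    closure_minimal (fun z hz => ⟨hz.1.le, hz.2.1.le, hz.2.2.1.le, hz.2.2.2.le⟩)
      ((isClosed_le continuous_const Complex.continuous_re).inter
      ((isClosed_le Complex.continuous_re continuous_const).inter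
      ((isClosed_le continuous_const Complex.continuous_im).inter
      (isClosed_le Complex.continuous_im continuous_const))))
  have e : ∀ z : ℂ, (1 + (0.002 : ℝ) * Complex.cos z : ℂ).re =
      1 + 0.002 * (Real.cos z.re * Real.cosh z.im) := fun z => by
    rw [Complex.cos_eq]
    simp [← Complex.ofReal_cos, ← Complex.ofReal_cosh, ← Complex.ofReal_sin, ← Complex.ofReal_sinh]
  have := hle ho (Om_bdd.subset hs) (h1.mono hs)
    (hre (F := fun z => 1 + (0.002 : ℝ) * Complex.cos z) (by fun_prop) G) (z := 0) (fun z hz => ?_)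
    (by simp [hG])
  · rw [e] at this
    simp at this
    linarith
  rw [ho.frontier_eq] at hz
  obtain ⟨a, b, c, d⟩ := hc hz.1
  rw [e]
  have k1 : 1 / 2 ≤ Real.cos z.re := by
    have := Real.one_sub_sq_div_two_le_cos (x := z.re)
    nlinarith
  have k2 := Real.one_le_cosh z.im
  by_cases f : z.re = -1 ∨ z.re = 1
  · have : z ∉ Om := by
      rcases f with f | f
      · intro k
        exact slit_out d (by simpa [Om, ← f] using k)
      · intro k
        exact slit_out (y := -z.im) (by linarith) (by simpa [Om, ← f] using O_neg k)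
    rw [h2 z this]
    have : q z = 1 := by rcases f with f | f <;> simp [q, f]
    nlinarith
  · push Not at f
    have g : |z.im| = 200 := by
      by_contra g
      refine hz.2 ⟨lt_of_le_of_ne a f.1.symm, lt_of_le_of_ne b f.2, lt_of_le_of_ne c ?_,
        lt_of_le_of_ne d ?_⟩
      · intro k; rw [← k] at g; norm_num at g
      · intro k; rw [k] at g; norm_num at g
    have k3 : 10000 ≤ Real.cosh z.im := by
      rw [← Real.cosh_abs, g, Real.cosh_eq]
      have := Real.quadratic_le_exp_of_nonneg (x := 200) (by norm_num)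
      have := Real.exp_pos (-200)
      linarith
    have := le_nine h1 h2 (closure_mono hs hz.1)
    nlinarith

lemma lower (h1 : HarmonicContOnCl U Om) (h3 : ∀ z, q z ≤ U z) :
    1.003 ≤ U ⟨-1, 200 + 25 / 32⟩ - q ⟨-1, 200 + 25 / 32⟩ := by
  set G : Set ℂ := {z | (z.re + 1) ^ 2 + (z.im - 200) ^ 2 < 4 ∧ (z.re ≠ -1 ∨ 200 < z.im)} with hG
  have ho : IsOpen G := by
    have a : IsOpen {z : ℂ | (z.re + 1) ^ 2 + (z.im - 200) ^ 2 < 4} :=
      isOpen_lt (by fun_prop) (by fun_prop)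
    have b : IsOpen {z : ℂ | z.re ≠ -1} := isOpen_ne_fun (by fun_prop) (by fun_prop)
    have c : IsOpen {z : ℂ | 200 < z.im} := isOpen_lt (by fun_prop) (by fun_prop)
    convert a.inter (b.union c) using 1
    ext z
    simp only [hG, mem_setOf_eq, mem_inter_iff, mem_union]
  have hs : G ⊆ Om := fun z hz => Or.inr (Or.inl hz)
  have hc : closure G ⊆ {z | (z.re + 1) ^ 2 + (z.im - 200) ^ 2 ≤ 4} :=
    closure_minimal (fun z hz => hz.1.le) (isClosed_le (by fun_prop) (by fun_prop))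
  have hY := Y_harm (-Complex.I / 2) p (G := G) fun z hz => by
    rw [Complex.mem_slitPlane_iff]
    rcases hz.2 with k | k
    · right
      simp [p]
      intro k'
      exact k (by linarith)
    · left
      simp [p]
      linarith
  have e0 : ∀ z : ℂ, (-Complex.I / 2 * (z - p)).re = (z.im - 200) / 2 := fun z => by
    simp [p]; ring
  have e1 : ∀ z : ℂ, ‖-Complex.I / 2 * (z - p)‖ = dist z p / 2 := fun z => by
    rw [norm_mul, dist_eq_norm]; simp; ring
  have e : ∀ z : ℂ, (-2 * z - 1 + (17 / 32 : ℝ) * (z - p) ^ 2 : ℂ).re =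
      -2 * z.re - 1 + 17 / 32 * ((z.re + 1) ^ 2 - (z.im - 200) ^ 2) := fun z => by
    simp [p, pow_two]
  have := hle ho (Om_bdd.subset hs) ((hY.const_smul (17 / 8)).add
    (hre (F := fun z => -2 * z - 1 + (17 / 32 : ℝ) * (z - p) ^ 2) (by fun_prop) G)) (h1.mono hs)
    (z := ⟨-1, 200 + 25 / 32⟩) (fun z hz => ?_) (by simp [hG]; norm_num)
  · simp only [Pi.add_apply, Pi.smul_apply, smul_eq_mul, e] at this
    have k : Y (-Complex.I / 2 * (⟨-1, 200 + 25 / 32⟩ - p)) = 5 / 8 := by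
      refine (pow_left_inj₀ (Y_nonneg _) (by norm_num) two_ne_zero).1 ?_
      have : dist (⟨-1, 200 + 25 / 32⟩ : ℂ) p = 25 / 32 := by
        refine (pow_left_inj₀ dist_nonneg (by norm_num) two_ne_zero).1 ?_
        rw [dp]; norm_num
      rw [Y_sq, e0, e1, this]; norm_num
    rw [k] at this
    simp only [q]
    norm_num at this ⊢
    linarith
  rw [ho.frontier_eq] at hz
  refine le_trans ?_ (h3 z)
  simp only [Pi.add_apply, Pi.smul_apply, smul_eq_mul, e, q]
  have a := hc hz.1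
  have y1 := Y_sq (-Complex.I / 2 * (z - p))
  have y2 := Y_nonneg (-Complex.I / 2 * (z - p))
  rw [e0, e1] at y1
  generalize Y (-Complex.I / 2 * (z - p)) = t at *
  have r1 := dp z
  by_cases b : (z.re + 1) ^ 2 + (z.im - 200) ^ 2 < 4
  · have c : z.re = -1 ∧ z.im ≤ 200 := by
      by_contra c
      refine hz.2 ⟨b, ?_⟩
      by_contra c'
      push Not at c'
      exact c c'
    have r2 : dist z p = 200 - z.im := by
      refine (pow_left_inj₀ dist_nonneg (by linarith [c.2]) two_ne_zero).1 ?_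
      rw [r1, c.1]; ring
    have t0 : t = 0 := by rw [r2] at y1; nlinarith
    rw [t0, c.1]
    nlinarith [sq_nonneg (z.im - 200)]
  · have b' : (z.re + 1) ^ 2 + (z.im - 200) ^ 2 = 4 := le_antisymm a (not_lt.1 b)
    have r2 : dist z p = 2 := by
      refine (pow_left_inj₀ dist_nonneg (by norm_num) two_ne_zero).1 ?_
      rw [r1, b']; norm_num
    rw [r2] at y1
    have y3 : z.im - 200 = 4 * t ^ 2 - 2 := by linarith
    have y4 : (z.re + 1) ^ 2 = 4 - (4 * t ^ 2 - 2) ^ 2 := by rw [← y3]; linarith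
    have t2 : z.im - 200 ≤ 2 := by nlinarith [sq_nonneg (z.re + 1)]
    have t1 : t ≤ 1 := by nlinarith
    have y5 : (t - 1) * (17 / 8 - t ^ 2 * (t + 1)) ≤ 0 :=
      mul_nonpos_of_nonpos_of_nonneg (by linarith) (by nlinarith)
    rw [y3]
    nlinarith

lemma symm_le (h1 : HarmonicContOnCl U Om) (h2 : ∀ z ∉ Om, U z = q z) {z : ℂ} (hz : z ∈ Om) :
    U z ≤ U (-z) := by
  have hn : HarmonicContOnCl (fun z => U (-z)) Om := by
    refine ⟨fun w hw => ?_, h1.2.comp (by fun_prop)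
      (MapsTo.closure (f := fun z : ℂ => -z) (fun _ => Om_neg) (by fun_prop))⟩
    obtain ⟨R, hR, hb⟩ := Metric.isOpen_iff.1 Om_open _ (Om_neg hw)
    obtain ⟨F, f1, f2⟩ := (h1.1.mono hb).exists_analyticOnNhd_ball_re_eq
    have a := ((f1 _ (mem_ball_self hR)).comp_of_eq (f := fun z : ℂ => -z) (x := w) (by fun_prop)
      rfl).harmonicAt_re
    refine (harmonicAt_congr_nhds ?_).1 a
    have : ContinuousAt (fun z : ℂ => -z) w := by fun_prop
    filter_upwards [this.eventually (ball_mem_nhds _ hR)] with y hy using f2 hy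
  refine hle Om_open Om_bdd h1 hn (fun w hw => ?_) hz
  rw [Om_open.frontier_eq] at hw
  rw [h2 w hw.2, h2 (-w) fun k => hw.2 (by simpa using Om_neg k)]
  simp [q]

theorem main : ∃ v : ℂ → ℝ, ContDiffOn ℝ 2 v Om ∧
    (∀ z ∈ Om, fderiv ℝ (fun w => fderiv ℝ v w (1 : ℂ)) z (1 : ℂ)
      + fderiv ℝ (fun w => fderiv ℝ v w Complex.I) z Complex.I = -2) ∧
    ContinuousOn v (closure Om) ∧ (∀ z ∈ frontier Om, v z = 0) ∧
    2 ≤ Set.encard {z : ℂ | z ∈ Om ∧ fderiv ℝ v z = 0} := by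
  obtain ⟨U, h1, h2, h3⟩ := perron Om_open Om_bdd bar
  have cd : ∀ z ∈ Om, ContDiffAt ℝ 2 (U - q) z := fun z hz => (h1.1 z hz).1.sub q_cd.contDiffAt
  have cc : ContinuousOn (U - q) (closure Om) := h1.2.sub q_cont.continuousOn
  refine ⟨U - q, fun z hz => (cd z hz).contDiffWithinAt, fun z hz => ?_, cc, fun z hz => ?_, ?_⟩
  · have e := (h1.1 z hz).1.laplacian_sub q_cd.contDiffAt
    rw [hlap (h1.1 z hz), q_lap, InnerProductSpace.laplacian_eq_iteratedFDeriv_complexPlane] at e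
    simp only [iter (cd z hz)] at e
    linarith
  · rw [Om_open.frontier_eq] at hz
    simp [h2 z hz.2]
  have z0 : (⟨-1, 200 + 25 / 32⟩ : ℂ) ∈ Om := Or.inr (Or.inl (by norm_num))
  obtain ⟨w, hw, hm⟩ := Om_bdd.isCompact_closure.exists_isMaxOn ⟨_, subset_closure z0⟩ cc
  have a : 1.003 ≤ U w - q w := (lower h1 h3).trans (hm (subset_closure z0))
  have w1 : w ∈ Om := by
    by_contra k
    rw [h2 w k] at a
    norm_num at a
  have w0 : w ≠ -w := fun k => by
    have : w = 0 := by linear_combination k / 2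
    have b := upper h1 h2
    rw [this] at a
    simp [q] at a
    linarith
  have hm' : IsMaxOn (U - q) (closure Om) (-w) := fun z hz => by
    have b : U z - q z ≤ U w - q w := hm hz
    have c := symm_le h1 h2 w1
    change U z - q z ≤ U (-w) - q (-w)
    simp only [q, Complex.neg_re, neg_sq] at b ⊢
    linarith
  have cr : ∀ z ∈ Om, IsMaxOn (U - q) (closure Om) z → fderiv ℝ (U - q) z = 0 := fun z hz h =>
    (h.isLocalMax (mem_of_superset (Om_open.mem_nhds hz) subset_closure)).fderiv_eq_zero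
  rw [← encard_pair w0]
  refine encard_le_encard ?_
  rintro z (rfl | rfl)
  · exact ⟨w1, cr _ w1 hm⟩
  · exact ⟨Om_neg w1, cr _ (Om_neg w1) hm'⟩

end Pool.Agent.H.Tors
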